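import Pool.Agent.H63.TC.Stmts

/-!
# Project TC: HAR, the Harnack inequality for displacements
-/

open Complex Metric Set Filter Topology

namespace Pool.Agent.H63.TC

lemma har_dd (m m' : ℂ × ℂ) : dd m ≤ dd m' + ‖m - m'‖ := by
  have h1 : ‖m.1 - m'.1‖ ≤ ‖m - m'‖ := norm_fst_le (m - m')
  have h2 : ‖m.2 - m'.2‖ ≤ ‖m - m'‖ := norm_snd_le (m - m')
  have a1 : dd m ≤ ‖m.1‖ := by
    unfold dd; exact (min_le_left _ _).trans ((min_le_left _ _).trans (min_le_left _ _))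
  have a2 : dd m ≤ ‖m.1 - 1‖ := by
    unfold dd; exact (min_le_left _ _).trans ((min_le_left _ _).trans (min_le_right _ _))
  have a3 : dd m ≤ ‖m.2‖ := by
    unfold dd; exact (min_le_left _ _).trans ((min_le_right _ _).trans (min_le_left _ _))
  have a4 : dd m ≤ ‖m.2 - 1‖ := by
    unfold dd; exact (min_le_left _ _).trans ((min_le_right _ _).trans (min_le_right _ _))
  have a5 : dd m ≤ ‖m.1 - m.2‖ / 2 := by
    unfold dd; exact min_le_right _ _
  rw [← sub_le_iff_le_add]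
  have e (a b : ℂ) : ‖a‖ ≤ ‖b‖ + ‖a - b‖ := norm_le_norm_add_norm_sub' a b
  have b1 := e m.1 m'.1
  have b2 := e (m.1 - 1) (m'.1 - 1)
  have b3 := e m.2 m'.2
  have b4 := e (m.2 - 1) (m'.2 - 1)
  have b5 := e (m.1 - m.2) (m'.1 - m'.2)
  have c2 : m.1 - 1 - (m'.1 - 1) = m.1 - m'.1 := by ring
  have c4 : m.2 - 1 - (m'.2 - 1) = m.2 - m'.2 := by ring
  have c5 : m.1 - m.2 - (m'.1 - m'.2) = (m.1 - m'.1) - (m.2 - m'.2) := by ring
  rw [c2] at b2
  rw [c4] at b4
  rw [c5] at b5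
  have d5 := norm_sub_le (m.1 - m'.1) (m.2 - m'.2)
  have h : dd m' = min (min (min ‖m'.1‖ ‖m'.1 - 1‖) (min ‖m'.2‖ ‖m'.2 - 1‖)) (‖m'.1 - m'.2‖ / 2) :=
    rfl
  rw [h]
  refine le_min (le_min (le_min ?_ ?_) (le_min ?_ ?_)) ?_ <;> linarith

variable {V : Type} [TopologicalSpace V] (A : Atlas V)

lemma har_close_mono {K : Set V} {c c' : ℝ} (h : c ≤ c') {F : V → V} (hF : A.Close K c F) :
    A.Close K c' F := fun p hp => ⟨(hF p hp).1.trans h, (hF p hp).2⟩

lemma har_close_sub {K K' : Set V} {c : ℝ} (h : K' ⊆ K) {F : V → V} (hF : A.Close K c F) :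
    A.Close K' c F := fun p hp => hF p (h hp)

/-- iteration on a sheet ball -/
lemma har_iter (p : V) {ρ δ : ℝ} {K₀ : Set V} (hρ : 2 * ρ < dd (A.E p))
    (hK : A.sb p (2 * ρ) ⊆ K₀) (hδ : 0 < δ) {F : V → V} (hF : A.Close K₀ δ F)
    {m : ℂ × ℂ} (hm : ‖m - A.E p‖ ≤ ρ) :
    ∀ j : ℕ, j * δ ≤ ρ → ‖A.E (F^[j] (A.sec p m)) - m‖ ≤ j * δ ∧
      F^[j] (A.sec p m) = A.sec p (A.E (F^[j] (A.sec p m))) := by
  have hρ0 : 0 ≤ ρ := (norm_nonneg _).trans hm
  have hm1 : m ∈ ball (A.E p) (dd (A.E p)) := by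
    rw [mem_ball, dist_eq_norm]; linarith
  intro j
  induction j with
  | zero =>
    intro _
    simp only [Function.iterate_zero, id_eq, Nat.cast_zero, zero_mul]
    rw [A.E_sec p m hm1]
    simp
  | succ j ih =>
    intro hj
    have hj' : ((j + 1 : ℕ) : ℝ) * δ = j * δ + δ := by push_cast; ring
    rw [hj'] at hj ⊢
    obtain ⟨i1, i2⟩ := ih (by linarith)
    set q := F^[j] (A.sec p m) with hq
    have e1 : F^[j + 1] (A.sec p m) = F q := by rw [Function.iterate_succ_apply', hq]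
    rw [e1]
    have n1 : ‖A.E q - A.E p‖ ≤ ρ + j * δ := by
      have : A.E q - A.E p = (A.E q - m) + (m - A.E p) := by abel
      rw [this]
      have := norm_add_le (A.E q - m) (m - A.E p)
      linarith
    have hqK : q ∈ K₀ := by
      apply hK
      refine ⟨A.E q, ?_, i2.symm⟩
      rw [mem_closedBall, dist_eq_norm]
      linarith
    obtain ⟨f1, f2, f3⟩ := hF q hqK
    have n2 : ‖A.E (F q) - m‖ ≤ j * δ + δ := by
      have : A.E (F q) - m = (A.E (F q) - A.E q) + (A.E q - m) := by abel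
      rw [this]
      have := norm_add_le (A.E (F q) - A.E q) (A.E q - m)
      linarith
    refine ⟨n2, ?_⟩
    have n3 : ‖A.E (F q) - A.E p‖ ≤ ρ + (j * δ + δ) := by
      have : A.E (F q) - A.E p = (A.E (F q) - m) + (m - A.E p) := by abel
      rw [this]
      have := norm_add_le (A.E (F q) - m) (m - A.E p)
      linarith
    have hq1 : A.E q ∈ ball (A.E p) (dd (A.E p)) := by
      rw [mem_ball, dist_eq_norm]; linarith
    have hq2 : A.E (F q) ∈ ball (A.E p) (dd (A.E p)) := by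
      rw [mem_ball, dist_eq_norm]; linarith
    have hq3 : A.E (F q) ∈ ball (A.E q) (dd (A.E q)) := by
      rw [mem_ball, dist_eq_norm]; linarith
    have := A.sec_sec hq1 hq2 hq3
    rw [← i2, f3] at this
    exact this

lemma har_iter_close (p : V) {ρ δ : ℝ} {K₀ : Set V} (hρ : 2 * ρ < dd (A.E p))
    (hK : A.sb p (2 * ρ) ⊆ K₀) (hδ : 0 < δ) {F : V → V} (hF : A.Close K₀ δ F)
    (j : ℕ) (hj : j * δ ≤ ρ) : A.Close (A.sb p ρ) (j * δ) (F^[j]) := by
  rintro _ ⟨m, hm, rfl⟩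
  rw [mem_closedBall, dist_eq_norm] at hm
  have hρ0 : 0 ≤ ρ := (norm_nonneg _).trans hm
  have hm1 : m ∈ ball (A.E p) (dd (A.E p)) := by
    rw [mem_ball, dist_eq_norm]; linarith
  obtain ⟨h1, h2⟩ := har_iter A p hρ hK hδ hF hm j hj
  rw [A.E_sec p m hm1]
  have hd : dd (A.E p) ≤ dd m + ρ := by
    have := har_dd (A.E p) m
    rw [norm_sub_rev] at this
    linarith
  refine ⟨h1, by linarith, ?_⟩
  have n1 : ‖A.E (F^[j] (A.sec p m)) - A.E p‖ ≤ ρ + j * δ := by
    have : A.E (F^[j] (A.sec p m)) - A.E p = (A.E (F^[j] (A.sec p m)) - m) + (m - A.E p) := by abel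
    rw [this]
    have := norm_add_le (A.E (F^[j] (A.sec p m)) - m) (m - A.E p)
    linarith
  have hq2 : A.E (F^[j] (A.sec p m)) ∈ ball (A.E p) (dd (A.E p)) := by
    rw [mem_ball, dist_eq_norm]; linarith
  have hq3 : A.E (F^[j] (A.sec p m)) ∈ ball m (dd m) := by
    rw [mem_ball, dist_eq_norm]; linarith
  have := A.sec_sec hm1 hq2 hq3
  rw [this, ← h2]

/-- a uniform form of NRM -/
lemma har_unif (hN : NrmStmt) [SimplyConnectedSpace V] (K₁ K : Set V)
    (h₁ : (interior K₁).Nonempty) (hK : IsCompact K) (η : ℝ) (hη : 0 < η) :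
    ∃ c > 0, ∀ G : V → V, A.HolSelf G → A.Close K₁ c G → A.Close K η G := by
  by_contra hcon
  push Not at hcon
  have h2 : ∀ n : ℕ, ∃ G : V → V, A.HolSelf G ∧ A.Close K₁ (1 / ((n : ℝ) + 1)) G ∧
      ¬ A.Close K η G := fun n => hcon _ (by positivity)
  choose G hG1 hG2 hG3 using h2
  have h3 : A.ToId atTop G := by
    refine hN V A K₁ h₁ ℕ atTop G hG1 ?_
    intro c hc
    have h4 : Tendsto (fun n : ℕ => 1 / ((n : ℝ) + 1)) atTop (𝓝 0) :=
      tendsto_one_div_add_atTop_nhds_zero_nat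
    have h5 := h4.eventually (gt_mem_nhds hc)
    filter_upwards [h5] with n hn
    exact har_close_mono A (le_of_lt hn) (hG2 n)
  obtain ⟨n, hn⟩ := (h3 K hK η hη).exists
  exact hG3 n hn

/-- the union of the sheet balls of radius `r` around the points of a compact set is compact -/
lemma har_nbhd {K : Set V} (hK : IsCompact K) {r : ℝ} (hr : ∀ q ∈ K, r < dd (A.E q)) :
    IsCompact ((fun x : V × (ℂ × ℂ) => A.sec x.1 (A.E x.1 + x.2)) '' (K ×ˢ closedBall 0 r)) := by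
  refine (hK.prod (isCompact_closedBall _ _)).image_of_continuousOn ?_
  have h1 : Continuous (fun x : V × (ℂ × ℂ) => (x.1, A.E x.1 + x.2)) := by
    have := A.cont_E
    fun_prop
  refine A.cont_sec.comp h1.continuousOn ?_
  rintro ⟨q, w⟩ ⟨hq, hw⟩
  simp only [mem_setOf_eq]
  rw [mem_ball, dist_eq_norm, add_sub_cancel_left]
  rw [mem_closedBall, dist_zero_right] at hw
  exact lt_of_le_of_lt hw (hr q hq)

/-- the key estimate -/
lemma har_key (hC : CauStmt) {q : V} {r η : ℝ} (hr0 : 0 < r) (hr : r < dd (A.E q))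
    (hη : η ≤ r / 16) {F : V → V} (hF : A.HolSelf F) (j : ℕ)
    (hcl : ∀ i ≤ j, ∀ m, ‖m - A.E q‖ ≤ r → ‖A.E (F^[i] (A.sec q m)) - m‖ ≤ η)
    (h1 : 1 ≤ j) (hFq : A.sec q (A.E (F q)) = F q) :
    j * ‖A.E (F q) - A.E q‖ ≤ 2 * η := by
  set v₀ := A.E (F q) - A.E q with hv₀
  have hqq : A.sec q (A.E q) = q := A.sec_self q
  have hv : ‖v₀‖ ≤ η := by
    have := hcl 1 h1 (A.E q) (by simp [hr0.le])
    rw [hqq] at this
    simpa using this
  have hη0 : 0 ≤ η := (norm_nonneg _).trans hv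
  have step : ∀ i ≤ j, ‖A.E (F^[i] (F q)) - A.E (F^[i] q) - v₀‖ ≤ ‖v₀‖ / 2 := by
    intro i hi
    have hd : DifferentiableOn ℂ (fun m => A.E (F^[i] (A.sec q m)) - m) (ball (A.E q) r) := by
      have h2 := (hF.iterate i).2.differentiableOn_sec q
      have h3 := h2.mono (ball_subset_ball hr.le)
      exact h3.sub differentiableOn_id
    have hb : ∀ m' ∈ ball (A.E q) r, ‖A.E (F^[i] (A.sec q m')) - m'‖ ≤ η := by
      intro m' hm'
      rw [mem_ball, dist_eq_norm] at hm'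
      exact hcl i hi m' hm'.le
    have h4 := hC (ℂ × ℂ) _ (A.E q) r η hr0 hd hb (A.E (F q))
      (by rw [mem_ball, dist_eq_norm, ← hv₀]; linarith) (A.E q) (mem_ball_self (by linarith))
    simp only [hFq, hqq] at h4
    have h5 : A.E (F^[i] (F q)) - A.E (F q) - (A.E (F^[i] q) - A.E q) =
        A.E (F^[i] (F q)) - A.E (F^[i] q) - v₀ := by rw [hv₀]; abel
    rw [h5] at h4
    refine h4.trans ?_
    have h6 : 8 * η / r ≤ 1 / 2 := by
      rw [div_le_iff₀ hr0]; linarith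
    have h7 := mul_le_mul_of_nonneg_right h6 (norm_nonneg v₀)
    have h8 : ‖A.E (F q) - A.E q‖ = ‖v₀‖ := rfl
    rw [h8]
    linarith
  have tot : ∀ i ≤ j, ‖A.E (F^[i] q) - A.E q - (i : ℝ) • v₀‖ ≤ i * (‖v₀‖ / 2) := by
    intro i
    induction i with
    | zero => intro _; simp
    | succ i ih =>
      intro hi
      have h2 := ih (by omega)
      have h3 := step i (by omega)
      have e1 : F^[i + 1] q = F^[i] (F q) := rfl
      rw [e1]
      have e2 : A.E (F^[i] (F q)) - A.E q - ((i + 1 : ℕ) : ℝ) • v₀ =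
          (A.E (F^[i] (F q)) - A.E (F^[i] q) - v₀) + (A.E (F^[i] q) - A.E q - (i : ℝ) • v₀) := by
        push_cast
        rw [add_smul, one_smul]
        abel
      rw [e2]
      have h4 := norm_add_le (A.E (F^[i] (F q)) - A.E (F^[i] q) - v₀)
        (A.E (F^[i] q) - A.E q - (i : ℝ) • v₀)
      push_cast
      linarith
  have h2 := tot j le_rfl
  have h3 : ‖A.E (F^[j] q) - A.E q‖ ≤ η := by
    have := hcl j le_rfl (A.E q) (by simp [hr0.le])
    rwa [hqq] at this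
  have h4 : ‖(j : ℝ) • v₀‖ ≤ ‖A.E (F^[j] q) - A.E q‖ + ‖A.E (F^[j] q) - A.E q - (j : ℝ) • v₀‖ := by
    have e : (j : ℝ) • v₀ = (A.E (F^[j] q) - A.E q) - (A.E (F^[j] q) - A.E q - (j : ℝ) • v₀) := by
      abel
    calc ‖(j : ℝ) • v₀‖ = ‖(A.E (F^[j] q) - A.E q) - (A.E (F^[j] q) - A.E q - (j : ℝ) • v₀)‖ := by
          rw [← e]
      _ ≤ _ := norm_sub_le _ _
  rw [norm_smul, Real.norm_eq_abs, abs_of_nonneg (Nat.cast_nonneg j)] at h4
  linarith

theorem har (hN : NrmStmt) (hC : CauStmt) : HarStmt := by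
  intro V _ _ A K₀ K hK₀ hK
  obtain ⟨p, hp⟩ := hK₀
  -- the sheet ball
  have hp' : K₀ ∈ 𝓝 p := mem_interior_iff_mem_nhds.1 hp
  obtain ⟨ρ, hρ0, hρ, hρK⟩ : ∃ ρ > 0, 2 * ρ < dd (A.E p) ∧ A.sb p (2 * ρ) ⊆ K₀ := by
    have h1 : ContinuousAt (A.sec p) (A.E p) := A.continuousAt_sec p (A.self_mem p)
    have h2 : A.sec p ⁻¹' K₀ ∈ 𝓝 (A.E p) := by
      apply h1; rw [A.sec_self]; exact hp'
    obtain ⟨r, hr, hrt⟩ := Metric.nhds_basis_closedBall.mem_iff.1 h2
    have h := A.dd_pos p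
    have h3 : 0 < min r (dd (A.E p) / 2) := lt_min hr (by linarith)
    refine ⟨min r (dd (A.E p) / 2) / 2, by linarith, ?_, ?_⟩
    · have := min_le_right r (dd (A.E p) / 2)
      linarith
    · rintro _ ⟨m, hm, rfl⟩
      apply hrt
      refine closedBall_subset_closedBall ?_ hm
      have := min_le_left r (dd (A.E p) / 2)
      linarith
  -- the radius around points of `K`
  obtain ⟨r, hr0, hr⟩ : ∃ r > 0, ∀ q ∈ K, r < dd (A.E q) := by
    rcases K.eq_empty_or_nonempty with h | h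
    · exact ⟨1, one_pos, by simp [h]⟩
    · obtain ⟨q₀, -, hq₀⟩ := hK.exists_isMinOn h
        (f := fun q => dd (A.E q)) (continuous_dd.comp A.cont_E).continuousOn
      have := A.dd_pos q₀
      refine ⟨dd (A.E q₀) / 2, by linarith, ?_⟩
      intro q hq
      have := hq₀ hq
      simp only [mem_setOf_eq] at this
      linarith
  set K' := (fun x : V × (ℂ × ℂ) => A.sec x.1 (A.E x.1 + x.2)) '' (K ×ˢ closedBall 0 r) with hK'
  have hK'c : IsCompact K' := har_nbhd A hK hr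
  have hη : 0 < r / 16 := by positivity
  have hint : (interior (A.sb p ρ)).Nonempty :=
    ⟨p, mem_interior_iff_mem_nhds.2 (A.sb_mem_nhds p hρ0)⟩
  obtain ⟨c₁, hc₁, hG⟩ := har_unif A hN (A.sb p ρ) K' hint hK'c (r / 16) hη
  have hKK' : K ⊆ K' := by
    intro q hq
    refine ⟨(q, 0), ⟨hq, by simp [hr0.le]⟩, ?_⟩
    simp only [add_zero]
    exact A.sec_self q
  set c := min ρ c₁ with hc
  have hc0 : 0 < c := lt_min hρ0 hc₁
  refine ⟨4 * (r / 16) / c, by positivity, c, hc0, ?_⟩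
  intro δ hδ hδc F hF hFc
  set j := ⌊c / δ⌋₊ with hj
  have hj1 : 1 ≤ j := by
    rw [hj, Nat.one_le_floor_iff, one_le_div hδ]
    exact hδc
  have hj2 : (j : ℝ) * δ ≤ c := by
    have := Nat.floor_le (div_nonneg hc0.le hδ.le)
    rw [← hj] at this
    rwa [le_div_iff₀ hδ] at this
  have hj3 : c ≤ 2 * (j * δ) := by
    have h1 := Nat.lt_floor_add_one (c / δ)
    rw [← hj] at h1
    rw [div_lt_iff₀ hδ] at h1
    have h2 : (1 : ℝ) ≤ j := by exact_mod_cast hj1
    nlinarith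
  have hcl : ∀ i ≤ j, A.Close K' (r / 16) (F^[i]) := by
    intro i hi
    have hi' : (i : ℝ) ≤ j := by exact_mod_cast hi
    have h1 : (i : ℝ) * δ ≤ c := (mul_le_mul_of_nonneg_right hi' hδ.le).trans hj2
    refine hG _ (hF.iterate i) ?_
    exact har_close_mono A (h1.trans (min_le_right _ _))
      (har_iter_close A p hρ hρK hδ hFc i (h1.trans (min_le_left _ _)))
  intro q hq
  have hF1 := hcl 1 hj1 q (hKK' hq)
  rw [Function.iterate_one] at hF1
  refine ⟨?_, hF1.2.1, hF1.2.2⟩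
  have key := har_key A hC hr0 (hr q hq) le_rfl hF j (by
    intro i hi m hm
    have hm' : m ∈ ball (A.E q) (dd (A.E q)) := by
      rw [mem_ball, dist_eq_norm]
      exact lt_of_le_of_lt hm (hr q hq)
    have h1 : A.sec q m ∈ K' := by
      refine ⟨(q, m - A.E q), ⟨hq, by rwa [mem_closedBall, dist_zero_right]⟩, ?_⟩
      simp only [add_sub_cancel]
    have h2 := (hcl i hi _ h1).1
    rwa [A.E_sec q m hm'] at h2) hj1 hF1.2.2
  have hjpos : (0 : ℝ) < j := by exact_mod_cast hj1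
  have h5 : ‖A.E (F q) - A.E q‖ ≤ 2 * (r / 16) / j := by
    rw [le_div_iff₀ hjpos]; linarith
  refine h5.trans ?_
  rw [div_mul_eq_mul_div, div_le_div_iff₀ hjpos hc0]
  nlinarith

end Pool.Agent.H63.TC
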