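import Pool.Agent.H63.TC.Stmts

/-!
# Project TC: MEA, the measure of the thin part
-/

open Complex Metric Set Filter Topology MeasureTheory

namespace Pool.Agent.H63.TC

/-- real coordinates of a point on the circle -/
lemma mea_normSq (r α : ℝ) :
    ‖1 - (r : ℂ) * exp (α * I)‖ ^ 2 = (1 - r) ^ 2 + 4 * r * (Real.sin (α / 2)) ^ 2 := by
  rw [← Complex.normSq_eq_norm_sq, Complex.normSq_apply]
  have h1 : ((1 : ℂ) - (r : ℂ) * exp (α * I)).re = 1 - r * Real.cos α := by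
    rw [Complex.sub_re, Complex.one_re, Complex.re_ofReal_mul, Complex.exp_ofReal_mul_I_re]
  have h2 : ((1 : ℂ) - (r : ℂ) * exp (α * I)).im = - (r * Real.sin α) := by
    rw [Complex.sub_im, Complex.one_im, Complex.im_ofReal_mul, Complex.exp_ofReal_mul_I_im]
    ring
  rw [h1, h2]
  have h3 : Real.cos α = 1 - 2 * (Real.sin (α / 2)) ^ 2 := by
    have h := Real.cos_two_mul (α / 2)
    have e : 2 * (α / 2) = α := by ring
    rw [e] at h
    have h4 := Real.sin_sq_add_cos_sq (α / 2)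
    nlinarith
  have h5 := Real.sin_sq_add_cos_sq α
  have h6 : (Real.sin α) ^ 2 = 1 - (Real.cos α) ^ 2 := by linarith
  calc (1 - r * Real.cos α) * (1 - r * Real.cos α) + -(r * Real.sin α) * -(r * Real.sin α)
      = 1 - 2 * r * Real.cos α + r ^ 2 * ((Real.cos α) ^ 2 + (Real.sin α) ^ 2) := by ring
    _ = 1 - 2 * r * Real.cos α + r ^ 2 := by rw [h6]; ring
    _ = _ := by rw [h3]; ring

lemma mea_A (w : ℂ) (hw : ‖w‖ = 1) (r s : ℝ) (hr : 1 / 2 ≤ r) (hs : 0 < s) :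
    volume {θ : ℝ | θ ∈ Icc 0 (2 * Real.pi) ∧ ‖1 - w * ((r : ℂ) * exp (θ * I))‖ < s} ≤
      ENNReal.ofReal (4 * Real.pi * s) := by
  have hπ := Real.pi_pos
  set γ := arg w with hγ
  have hwγ : w = exp (γ * I) := by
    have := Complex.norm_mul_exp_arg_mul_I w
    rw [hw] at this
    rw [hγ]
    simpa using this.symm
  have hγ1 : -Real.pi < γ := Complex.neg_pi_lt_arg w
  have hγ2 : γ ≤ Real.pi := Complex.arg_le_pi w
  have hsub : {θ : ℝ | θ ∈ Icc 0 (2 * Real.pi) ∧ ‖1 - w * ((r : ℂ) * exp (θ * I))‖ < s} ⊆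
      ball (-γ) (Real.pi * s) ∪ ball (2 * Real.pi - γ) (Real.pi * s) := by
    rintro θ ⟨⟨h0, h1⟩, h2⟩
    have e1 : w * ((r : ℂ) * exp (θ * I)) = (r : ℂ) * exp (((θ + γ : ℝ) : ℂ) * I) := by
      rw [hwγ]
      have : (((θ + γ : ℝ) : ℂ) * I) = γ * I + θ * I := by push_cast; ring
      rw [this, Complex.exp_add]
      ring
    rw [e1] at h2
    have h3 : ‖1 - (r : ℂ) * exp (((θ + γ : ℝ) : ℂ) * I)‖ ^ 2 < s ^ 2 := by
      have := norm_nonneg (1 - (r : ℂ) * exp (((θ + γ : ℝ) : ℂ) * I))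
      nlinarith
    rw [mea_normSq] at h3
    have h4 : (Real.sin ((θ + γ) / 2)) ^ 2 < s ^ 2 := by
      have h5 : 0 ≤ (1 - r) ^ 2 := sq_nonneg _
      have h6 : 0 ≤ (Real.sin ((θ + γ) / 2)) ^ 2 := sq_nonneg _
      nlinarith
    have h5 : |Real.sin ((θ + γ) / 2)| < s := abs_lt_of_sq_lt_sq h4 hs.le
    rcases le_or_gt ((θ + γ) / 2) (Real.pi / 2) with hc | hc
    · left
      have h6 : |(θ + γ) / 2| ≤ Real.pi / 2 := abs_le.2 ⟨by linarith, hc⟩
      have h7 := Real.mul_abs_le_abs_sin h6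
      have h8 : 2 / Real.pi * |(θ + γ) / 2| < s := lt_of_le_of_lt h7 h5
      rw [mem_ball, Real.dist_eq]
      have e2 : θ - -γ = 2 * ((θ + γ) / 2) := by ring
      rw [e2, abs_mul, abs_of_pos (two_pos)]
      have h9 : 2 * |(θ + γ) / 2| = Real.pi * (2 / Real.pi * |(θ + γ) / 2|) := by
        field_simp
      rw [h9]
      exact mul_lt_mul_of_pos_left h8 hπ
    · right
      have h6 : |(θ + γ) / 2 - Real.pi| ≤ Real.pi / 2 := abs_le.2 ⟨by linarith, by linarith⟩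
      have h7 := Real.mul_abs_le_abs_sin h6
      rw [Real.sin_sub_pi, abs_neg] at h7
      have h8 : 2 / Real.pi * |(θ + γ) / 2 - Real.pi| < s := lt_of_le_of_lt h7 h5
      rw [mem_ball, Real.dist_eq]
      have e2 : θ - (2 * Real.pi - γ) = 2 * ((θ + γ) / 2 - Real.pi) := by ring
      rw [e2, abs_mul, abs_of_pos (two_pos)]
      have h9 : 2 * |(θ + γ) / 2 - Real.pi| = Real.pi * (2 / Real.pi * |(θ + γ) / 2 - Real.pi|) := by
        field_simp
      rw [h9]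
      exact mul_lt_mul_of_pos_left h8 hπ
  refine (measure_mono hsub).trans ((measure_union_le _ _).trans ?_)
  rw [Real.volume_ball, Real.volume_ball, ← ENNReal.ofReal_add (by positivity) (by positivity)]
  apply ENNReal.ofReal_le_ofReal
  linarith

lemma mea_lt_one {r θ : ℝ} (hr0 : 0 ≤ r) (hr : r < 1) : (1 : ℂ) - (r : ℂ) * exp (θ * I) ≠ 0 := by
  intro h
  have h1 : (r : ℂ) * exp (θ * I) = 1 := (sub_eq_zero.1 h).symm
  have h2 : ‖(r : ℂ) * exp (θ * I)‖ = 1 := by rw [h1]; simp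
  rw [norm_mul, Complex.norm_exp_ofReal_mul_I, mul_one, Complex.norm_real, Real.norm_eq_abs,
    abs_of_nonneg hr0] at h2
  linarith

lemma mea_cay (z : ℂ) : cay I z = (I + I * z) / (1 - z) := by
  unfold cay
  rw [Complex.conj_I]
  ring

lemma mea_cay_im {r θ : ℝ} (hr0 : 0 ≤ r) (hr : r < 1) :
    (cay I ((r : ℂ) * exp (θ * I))).im = (1 - r ^ 2) / ‖1 - (r : ℂ) * exp (θ * I)‖ ^ 2 := by
  have h0 := mea_lt_one (θ := θ) hr0 hr
  have hn : ‖(r : ℂ) * exp (θ * I)‖ ^ 2 = r ^ 2 := by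
    rw [norm_mul, Complex.norm_exp_ofReal_mul_I, mul_one, Complex.norm_real, Real.norm_eq_abs,
      sq_abs]
  set z := (r : ℂ) * exp (θ * I) with hz
  rw [← Complex.normSq_eq_norm_sq, Complex.normSq_apply] at hn
  rw [mea_cay, Complex.div_im, ← Complex.normSq_eq_norm_sq]
  have h1 : (I + I * z).im = 1 + z.re := by simp
  have h2 : (I + I * z).re = - z.im := by simp
  have h3 : (1 - z).re = 1 - z.re := by simp
  have h4 : (1 - z).im = - z.im := by simp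
  rw [h1, h2, h3, h4, ← sub_div]
  congr 1
  rw [← hn]
  ring

lemma mea_vec (m n : ℤ) {z : ℂ} (hz : 1 - z ≠ 0) :
    (m : ℂ) * cay I z + n = ((n + m * I) - (starRingEnd ℂ) (n + m * I) * z) / (1 - z) := by
  have h1 : (starRingEnd ℂ) ((n : ℂ) + m * I) = n - m * I := by
    simp [Complex.conj_I, sub_eq_add_neg]
  rw [mea_cay, h1, eq_div_iff hz, add_mul, mul_assoc, div_mul_cancel₀ _ hz]
  ring

lemma mea_vec_norm (m n : ℤ) : (max m.natAbs n.natAbs : ℕ) ≤ ‖(n : ℂ) + m * I‖ := by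
  have h1 : |((n : ℂ) + m * I).re| ≤ ‖(n : ℂ) + m * I‖ := Complex.abs_re_le_norm _
  have h2 : |((n : ℂ) + m * I).im| ≤ ‖(n : ℂ) + m * I‖ := Complex.abs_im_le_norm _
  have e1 : ((n : ℂ) + m * I).re = n := by simp
  have e2 : ((n : ℂ) + m * I).im = m := by simp
  rw [e1] at h1
  rw [e2] at h2
  rw [Nat.cast_max]
  refine max_le ?_ ?_
  · rw [Nat.cast_natAbs, Int.cast_abs]; exact h2
  · rw [Nat.cast_natAbs, Int.cast_abs]; exact h1

/-- the rotation attached to a vector -/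
noncomputable def meaW (v : ℤ × ℤ) : ℂ :=
  (starRingEnd ℂ) ((v.2 : ℂ) + v.1 * I) / ((v.2 : ℂ) + v.1 * I)

lemma meaW_norm {v : ℤ × ℤ} (h : ((v.2 : ℂ) + v.1 * I) ≠ 0) : ‖meaW v‖ = 1 := by
  unfold meaW
  rw [norm_div, RCLike.norm_conj, div_self (norm_ne_zero_iff.2 h)]

lemma mea_B (r δ : ℝ) (hr : 1 / 2 ≤ r) (hr1 : r < 1) (hδ : 0 < δ) :
    volume {θ : ℝ | θ ∈ Icc 0 (2 * Real.pi) ∧ ∃ m n : ℤ, ¬ (m = 0 ∧ n = 0) ∧
      ‖(m : ℂ) * cay I ((r : ℂ) * exp (θ * I)) + n‖ ^ 2 <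
        δ * (cay I ((r : ℂ) * exp (θ * I))).im} ≤ ENNReal.ofReal (64 * Real.pi * δ) := by
  have hπ := Real.pi_pos
  have h1r : 0 < 1 - r := by linarith
  have h1r2 : 0 < 1 - r ^ 2 := by nlinarith
  set S := Real.sqrt (δ * (1 - r ^ 2)) with hS
  have hS0 : 0 < S := Real.sqrt_pos.2 (by positivity)
  have hS2 : S ^ 2 = δ * (1 - r ^ 2) := Real.sq_sqrt (by positivity)
  set R := Real.sqrt (2 * δ / (1 - r)) with hR
  have hR0 : 0 ≤ R := Real.sqrt_nonneg _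
  have hR2 : R ^ 2 = 2 * δ / (1 - r) := Real.sq_sqrt (by positivity)
  set N := ⌊R⌋₊ with hN
  let T : (ℤ × ℤ) → ℕ → Set ℝ := fun v k =>
    {θ : ℝ | θ ∈ Icc 0 (2 * Real.pi) ∧ ‖1 - meaW v * ((r : ℂ) * exp (θ * I))‖ < S / k}
  have hsub : {θ : ℝ | θ ∈ Icc 0 (2 * Real.pi) ∧ ∃ m n : ℤ, ¬ (m = 0 ∧ n = 0) ∧
      ‖(m : ℂ) * cay I ((r : ℂ) * exp (θ * I)) + n‖ ^ 2 <
        δ * (cay I ((r : ℂ) * exp (θ * I))).im} ⊆
      ⋃ k ∈ Finset.Icc 1 N, ⋃ v ∈ (Finset.box k : Finset (ℤ × ℤ)), T v k := by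
    rintro θ ⟨hθ, m, n, hmn, hlt⟩
    have hz := mea_lt_one (θ := θ) (by linarith) hr1
    rw [mea_vec m n hz, mea_cay_im (by linarith) hr1] at hlt
    set z := (r : ℂ) * exp (θ * I) with hzdef
    set u := (n : ℂ) + m * I with hu
    set k := max m.natAbs n.natAbs with hk
    have hk1 : 1 ≤ k := by
      rw [hk]
      by_contra hcon
      apply hmn
      have : m.natAbs = 0 ∧ n.natAbs = 0 := by omega
      exact ⟨Int.natAbs_eq_zero.1 this.1, Int.natAbs_eq_zero.1 this.2⟩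
    have hku : (k : ℝ) ≤ ‖u‖ := mea_vec_norm m n
    have hk1' : (1 : ℝ) ≤ k := by exact_mod_cast hk1
    have hu0 : u ≠ 0 := norm_pos_iff.1 (by linarith)
    have hdp : 0 < ‖1 - z‖ ^ 2 := by
      have := norm_pos_iff.2 hz
      positivity
    rw [norm_div, div_pow, ← mul_div_assoc, div_lt_div_iff_of_pos_right hdp] at hlt
    have hfac : u - (starRingEnd ℂ) u * z = u * (1 - meaW (m, n) * z) := by
      unfold meaW
      simp only
      rw [← hu]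
      field_simp
    rw [hfac, norm_mul, mul_pow, ← hS2] at hlt
    have hx0 := norm_nonneg (1 - meaW (m, n) * z)
    have h3 : k * ‖1 - meaW (m, n) * z‖ < S := by
      have h4 : (k * ‖1 - meaW (m, n) * z‖) ^ 2 < S ^ 2 := by
        rw [mul_pow]
        refine lt_of_le_of_lt ?_ hlt
        have : (k : ℝ) ^ 2 ≤ ‖u‖ ^ 2 := by nlinarith
        exact mul_le_mul_of_nonneg_right this (sq_nonneg _)
      exact lt_of_pow_lt_pow_left₀ 2 hS0.le h4
    have h4 : 1 - r ≤ ‖1 - meaW (m, n) * z‖ := by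
      have h5 : ‖meaW (m, n) * z‖ = r := by
        rw [norm_mul, meaW_norm (v := (m, n)) hu0, one_mul, hzdef, norm_mul,
          Complex.norm_exp_ofReal_mul_I, mul_one, Complex.norm_real, Real.norm_eq_abs,
          abs_of_nonneg (by linarith)]
      have h6 := norm_sub_norm_le (1 : ℂ) (meaW (m, n) * z)
      rw [h5, norm_one] at h6
      exact h6
    have h5 : (k : ℝ) ≤ R := by
      have h6 : (k * (1 - r)) ^ 2 < S ^ 2 := by
        have : k * (1 - r) ≤ k * ‖1 - meaW (m, n) * z‖ :=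
          mul_le_mul_of_nonneg_left h4 (by linarith)
        have h7 : 0 ≤ k * (1 - r) := by positivity
        nlinarith
      have h7 : (k : ℝ) ^ 2 ≤ R ^ 2 := by
        rw [hR2, le_div_iff₀ h1r]
        rw [hS2] at h6
        have h8 : (k : ℝ) ^ 2 * (1 - r) * (1 - r) ≤ 2 * δ * (1 - r) := by nlinarith
        exact le_of_mul_le_mul_right h8 h1r
      exact le_of_sq_le_sq h7 hR0
    simp only [mem_iUnion]
    refine ⟨k, ?_, (m, n), ?_, hθ, ?_⟩
    · rw [Finset.mem_Icc]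
      exact ⟨hk1, Nat.le_floor h5⟩
    · rw [Int.mem_box]
    · rw [lt_div_iff₀ (by linarith), mul_comm]
      exact h3
  refine (measure_mono hsub).trans ?_
  refine (measure_biUnion_finset_le _ _).trans ?_
  have hk : ∀ k ∈ Finset.Icc 1 N,
      volume (⋃ v ∈ (Finset.box k : Finset (ℤ × ℤ)), T v k) ≤
        ENNReal.ofReal (32 * Real.pi * S) := by
    intro k hk
    rw [Finset.mem_Icc] at hk
    have hk1 : (1 : ℝ) ≤ k := by exact_mod_cast hk.1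
    refine (measure_biUnion_finset_le _ _).trans ?_
    have hv : ∀ v ∈ (Finset.box k : Finset (ℤ × ℤ)), volume (T v k) ≤
        ENNReal.ofReal (4 * Real.pi * (S / k)) := by
      intro v hv
      rw [Int.mem_box] at hv
      have h1 := mea_vec_norm v.1 v.2
      rw [hv] at h1
      have hu0 : ((v.2 : ℂ) + v.1 * I) ≠ 0 := norm_pos_iff.1 (by linarith)
      exact mea_A _ (meaW_norm hu0) r (S / k) hr (by positivity)
    refine (Finset.sum_le_sum hv).trans ?_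
    rw [Finset.sum_const, Int.card_box (by omega), nsmul_eq_mul, ← ENNReal.ofReal_natCast,
      ← ENNReal.ofReal_mul (by positivity)]
    apply ENNReal.ofReal_le_ofReal
    push_cast
    have : 8 * (k : ℝ) * (4 * Real.pi * (S / k)) = 32 * Real.pi * S := by
      field_simp
      ring
    rw [this]
  refine (Finset.sum_le_sum hk).trans ?_
  rw [Finset.sum_const, Nat.card_Icc, nsmul_eq_mul, ← ENNReal.ofReal_natCast,
    ← ENNReal.ofReal_mul (by positivity)]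
  apply ENNReal.ofReal_le_ofReal
  have h1 : ((N + 1 - 1 : ℕ) : ℝ) ≤ R := by
    rw [Nat.add_sub_cancel]
    exact Nat.floor_le hR0
  have h2 : R * S ≤ 2 * δ := by
    have h3 : (R * S) ^ 2 ≤ (2 * δ) ^ 2 := by
      rw [mul_pow, hR2, hS2]
      have h4 : 2 * δ / (1 - r) * (δ * (1 - r ^ 2)) = 2 * δ ^ 2 * (1 + r) := by
        field_simp
        ring
      rw [h4]
      nlinarith
    exact le_of_sq_le_sq h3 (by positivity)
  calc ((N + 1 - 1 : ℕ) : ℝ) * (32 * Real.pi * S) ≤ R * (32 * Real.pi * S) :=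
        mul_le_mul_of_nonneg_right h1 (by positivity)
    _ = 32 * Real.pi * (R * S) := by ring
    _ ≤ 32 * Real.pi * (2 * δ) := mul_le_mul_of_nonneg_left h2 (by positivity)
    _ = 64 * Real.pi * δ := by ring

lemma mea_card (x y K : ℝ) (hK : 0 ≤ K) (h : y - x + 1 ≤ K) :
    ((Finset.Icc ⌈x⌉ ⌊y⌋).card : ℝ) ≤ K := by
  rw [Int.card_Icc]
  rcases le_total 0 (⌊y⌋ + 1 - ⌈x⌉) with h1 | h1
  · have h2 : (((⌊y⌋ + 1 - ⌈x⌉).toNat : ℤ) : ℝ) = ((⌊y⌋ + 1 - ⌈x⌉ : ℤ) : ℝ) := by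
      rw [Int.toNat_of_nonneg h1]
    have h3 : (((⌊y⌋ + 1 - ⌈x⌉).toNat : ℤ) : ℝ) = (((⌊y⌋ + 1 - ⌈x⌉).toNat : ℕ) : ℝ) := by
      norm_cast
    rw [← h3, h2]
    push_cast
    have h4 := Int.floor_le y
    have h5 := Int.le_ceil x
    linarith
  · rw [Int.toNat_of_nonpos h1]
    simpa using hK

lemma mea_C (a₀ b₁ b₂ ξ s₁ s₂ : ℝ) (hb : b₁ < b₂) (h1 : 0 ≤ s₁) (h2 : 0 ≤ s₂) :
    volume {b : ℝ | b ∈ Icc b₁ b₂ ∧ ∃ m n : ℤ, |a₀ - m| < s₁ ∧ |b - n + (a₀ - m) * ξ| < s₂} ≤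
      ENNReal.ofReal ((2 * s₁ + 1) * ((b₂ - b₁ + 1 + 2 * s₂) * (2 * s₂))) := by
  have hsub : {b : ℝ | b ∈ Icc b₁ b₂ ∧ ∃ m n : ℤ, |a₀ - m| < s₁ ∧
      |b - n + (a₀ - m) * ξ| < s₂} ⊆
      ⋃ m ∈ Finset.Icc ⌈a₀ - s₁⌉ ⌊a₀ + s₁⌋,
        ⋃ n ∈ Finset.Icc ⌈b₁ - s₂ + (a₀ - m) * ξ⌉ ⌊b₂ + s₂ + (a₀ - m) * ξ⌋,
          ball ((n : ℝ) - (a₀ - m) * ξ) s₂ := by
    rintro b ⟨⟨hb1, hb2⟩, m, n, hm, hn⟩
    rw [abs_lt] at hm hn
    simp only [mem_iUnion]
    refine ⟨m, ?_, n, ?_, ?_⟩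
    · rw [Finset.mem_Icc, Int.ceil_le, Int.le_floor]
      constructor <;> linarith
    · rw [Finset.mem_Icc, Int.ceil_le, Int.le_floor]
      constructor <;> linarith
    · rw [mem_ball, Real.dist_eq, abs_lt]
      constructor <;> linarith
  refine (measure_mono hsub).trans ?_
  refine (measure_biUnion_finset_le _ _).trans ?_
  have hm : ∀ m ∈ Finset.Icc ⌈a₀ - s₁⌉ ⌊a₀ + s₁⌋,
      volume (⋃ n ∈ Finset.Icc ⌈b₁ - s₂ + (a₀ - m) * ξ⌉ ⌊b₂ + s₂ + (a₀ - m) * ξ⌋,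
          ball ((n : ℝ) - (a₀ - m) * ξ) s₂) ≤
        ENNReal.ofReal ((b₂ - b₁ + 1 + 2 * s₂) * (2 * s₂)) := by
    intro m _
    refine (measure_biUnion_finset_le _ _).trans ?_
    simp only [Real.volume_ball]
    rw [Finset.sum_const, nsmul_eq_mul, ← ENNReal.ofReal_natCast,
      ← ENNReal.ofReal_mul (by positivity)]
    apply ENNReal.ofReal_le_ofReal
    refine mul_le_mul_of_nonneg_right ?_ (by positivity)
    refine mea_card _ _ _ ?_ ?_ <;> linarith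
  refine (Finset.sum_le_sum hm).trans ?_
  rw [Finset.sum_const, nsmul_eq_mul, ← ENNReal.ofReal_natCast,
    ← ENNReal.ofReal_mul (by positivity)]
  apply ENNReal.ofReal_le_ofReal
  refine mul_le_mul_of_nonneg_right ?_ (mul_nonneg (by linarith) (by linarith))
  refine mea_card _ _ _ ?_ ?_ <;> linarith

/-- the slices of the third bad set -/
lemma mea_D (a₀ b₁ b₂ δ ρ r θ : ℝ) (hb : b₁ < b₂) (hδ : 0 < δ) (hρ : 0 < ρ) (hr : 1 / 2 ≤ r)
    (hr1 : r < 1) (hθ : ρ ≤ ‖1 - (r : ℂ) * exp (θ * I)‖) :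
    volume {b : ℝ | b ∈ Icc b₁ b₂ ∧ ∃ m n : ℤ,
      ‖(a₀ : ℂ) * cay I (r * exp (θ * I)) + b - m * cay I (r * exp (θ * I)) - n‖ ^ 2 <
        δ * (cay I ((r : ℂ) * exp (θ * I))).im} ≤
      ENNReal.ofReal ((4 * δ + 2 * (Real.sqrt δ / ρ)) * (b₂ - b₁ + 1 + 2 * (Real.sqrt δ / ρ))) := by
  have hz := mea_lt_one (θ := θ) (by linarith) hr1
  have him := mea_cay_im (θ := θ) (by linarith) hr1
  have h1r2 : 0 < 1 - r ^ 2 := by nlinarith
  have hdp : 0 < ‖1 - (r : ℂ) * exp (θ * I)‖ ^ 2 := by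
    have := norm_pos_iff.2 hz
    positivity
  have hy0 : 0 < (cay I ((r : ℂ) * exp (θ * I))).im := by
    rw [him]; positivity
  have hy1 : (cay I ((r : ℂ) * exp (θ * I))).im ≤ 1 / ρ ^ 2 := by
    rw [him]
    refine div_le_div₀ (by norm_num) (by nlinarith) (by positivity) ?_
    exact pow_le_pow_left₀ hρ.le hθ 2
  set τ := cay I ((r : ℂ) * exp (θ * I)) with hτ
  set y := τ.im with hy
  set s₁ := Real.sqrt (δ / y) with hs₁
  set s₂ := Real.sqrt (δ * y) with hs₂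
  have hsub : {b : ℝ | b ∈ Icc b₁ b₂ ∧ ∃ m n : ℤ,
      ‖(a₀ : ℂ) * τ + b - m * τ - n‖ ^ 2 < δ * y} ⊆
      {b : ℝ | b ∈ Icc b₁ b₂ ∧ ∃ m n : ℤ, |a₀ - m| < s₁ ∧ |b - n + (a₀ - m) * τ.re| < s₂} := by
    rintro b ⟨hb, m, n, h⟩
    have e1 : ((a₀ : ℂ) * τ + b - m * τ - n).re = b - n + (a₀ - m) * τ.re := by
      simp only [Complex.sub_re, Complex.add_re, Complex.mul_re, Complex.ofReal_re,
        Complex.ofReal_im, Complex.intCast_re, Complex.intCast_im]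
      ring
    have e2 : ((a₀ : ℂ) * τ + b - m * τ - n).im = (a₀ - m) * y := by
      simp only [Complex.sub_im, Complex.add_im, Complex.mul_im, Complex.ofReal_re,
        Complex.ofReal_im, Complex.intCast_re, Complex.intCast_im]
      ring
    rw [← Complex.normSq_eq_norm_sq, Complex.normSq_apply, e1, e2] at h
    refine ⟨hb, m, n, ?_, ?_⟩
    · apply Real.lt_sqrt_of_sq_lt
      rw [sq_abs, lt_div_iff₀ hy0]
      have h3 : (a₀ - m) ^ 2 * y * y < δ * y := by nlinarith [sq_nonneg (b - n + (a₀ - m) * τ.re)]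
      exact lt_of_mul_lt_mul_right h3 hy0.le
    · apply Real.lt_sqrt_of_sq_lt
      rw [sq_abs]
      nlinarith [sq_nonneg ((a₀ - m) * y)]
  refine (measure_mono hsub).trans ((mea_C a₀ b₁ b₂ τ.re s₁ s₂ hb (Real.sqrt_nonneg _)
    (Real.sqrt_nonneg _)).trans ?_)
  apply ENNReal.ofReal_le_ofReal
  have h1 : s₁ * s₂ = δ := by
    rw [hs₁, hs₂, ← Real.sqrt_mul (by positivity)]
    have : δ / y * (δ * y) = δ ^ 2 := by field_simp
    rw [this, Real.sqrt_sq hδ.le]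
  have h2 : s₂ ≤ Real.sqrt δ / ρ := by
    rw [hs₂, Real.sqrt_mul hδ.le, div_eq_mul_inv]
    refine mul_le_mul_of_nonneg_left ?_ (Real.sqrt_nonneg _)
    rw [Real.sqrt_le_left (by positivity)]
    rw [inv_pow, ← one_div]
    exact hy1
  have h3 : 0 ≤ s₂ := Real.sqrt_nonneg _
  calc (2 * s₁ + 1) * ((b₂ - b₁ + 1 + 2 * s₂) * (2 * s₂))
      = (4 * (s₁ * s₂) + 2 * s₂) * (b₂ - b₁ + 1 + 2 * s₂) := by ring
    _ = (4 * δ + 2 * s₂) * (b₂ - b₁ + 1 + 2 * s₂) := by rw [h1]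
    _ ≤ _ := by
      refine mul_le_mul ?_ ?_ ?_ ?_
      · linarith
      · linarith
      · linarith
      · positivity

lemma mea_meas_cay (r : ℝ) : Measurable (fun x : ℝ × ℝ => cay I ((r : ℂ) * exp (x.2 * I))) := by
  unfold cay
  fun_prop

lemma mea_meas1 (ρ r : ℝ) :
    MeasurableSet {x : ℝ × ℝ | ρ ≤ ‖1 - (r : ℂ) * exp (x.2 * I)‖} := by
  refine measurableSet_le measurable_const ?_
  fun_prop

lemma mea_meas2 (δ r : ℝ) (m n : ℤ) :
    MeasurableSet {x : ℝ × ℝ | δ * (cay I (r * exp (x.2 * I))).im ≤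
      ‖(m : ℂ) * cay I (r * exp (x.2 * I)) + n‖ ^ 2} := by
  have h := mea_meas_cay r
  refine measurableSet_le ?_ ?_
  · exact (Complex.measurable_im.comp h).const_mul δ
  · exact (((h.const_mul (m : ℂ)).add_const (n : ℂ)).norm).pow_const 2

lemma mea_meas3 (a₀ δ r : ℝ) (m n : ℤ) :
    MeasurableSet {x : ℝ × ℝ | δ * (cay I (r * exp (x.2 * I))).im ≤
      ‖(a₀ : ℂ) * cay I (r * exp (x.2 * I)) + x.1 - m * cay I (r * exp (x.2 * I)) - n‖ ^ 2} := by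
  have h := mea_meas_cay r
  have h1 : Measurable (fun x : ℝ × ℝ => (x.1 : ℂ)) :=
    Complex.measurable_ofReal.comp measurable_fst
  refine measurableSet_le ?_ ?_
  · exact (Complex.measurable_im.comp h).const_mul δ
  · exact (((((h.const_mul (a₀ : ℂ)).add h1).sub (h.const_mul (m : ℂ))).sub_const
      (n : ℂ)).norm).pow_const 2

lemma mea_measT (a₀ δ ρ r : ℝ) : MeasurableSet {x | Thick a₀ δ ρ r x} := by
  have e : {x | Thick a₀ δ ρ r x} = {x : ℝ × ℝ | ρ ≤ ‖1 - (r : ℂ) * exp (x.2 * I)‖} ∩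
      ((⋂ m : ℤ, ⋂ n : ℤ, {x : ℝ × ℝ | ¬ (m = 0 ∧ n = 0) → δ * (cay I (r * exp (x.2 * I))).im ≤
        ‖(m : ℂ) * cay I (r * exp (x.2 * I)) + n‖ ^ 2}) ∩
      (⋂ m : ℤ, ⋂ n : ℤ, {x : ℝ × ℝ | δ * (cay I (r * exp (x.2 * I))).im ≤
        ‖(a₀ : ℂ) * cay I (r * exp (x.2 * I)) + x.1 - m * cay I (r * exp (x.2 * I)) - n‖ ^ 2})) := by
    ext x
    simp only [Thick, mem_inter_iff, mem_iInter, Set.mem_ofPred_eq]
  rw [e]
  refine (mea_meas1 ρ r).inter ((MeasurableSet.iInter fun m => MeasurableSet.iInter fun n => ?_).inter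
    (MeasurableSet.iInter fun m => MeasurableSet.iInter fun n => mea_meas3 a₀ δ r m n))
  by_cases h : m = 0 ∧ n = 0
  · have : {x : ℝ × ℝ | ¬ (m = 0 ∧ n = 0) → δ * (cay I (r * exp (x.2 * I))).im ≤
        ‖(m : ℂ) * cay I (r * exp (x.2 * I)) + n‖ ^ 2} = univ := by
      ext x
      simp [h]
    rw [this]
    exact MeasurableSet.univ
  · have : {x : ℝ × ℝ | ¬ (m = 0 ∧ n = 0) → δ * (cay I (r * exp (x.2 * I))).im ≤
        ‖(m : ℂ) * cay I (r * exp (x.2 * I)) + n‖ ^ 2} = {x : ℝ × ℝ |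
        δ * (cay I (r * exp (x.2 * I))).im ≤
        ‖(m : ℂ) * cay I (r * exp (x.2 * I)) + n‖ ^ 2} := by
      ext x
      simp only [h, not_false_eq_true, forall_const, Set.mem_ofPred_eq]
    rw [this]
    exact mea_meas2 δ r m n

lemma mea_E (a₀ b₁ b₂ δ ρ r : ℝ) (hb : b₁ < b₂) (hδ : 0 < δ) (hρ : 0 < ρ) (hr : 1 / 2 ≤ r)
    (hr1 : r < 1) :
    volume ({x | ¬ Thick a₀ δ ρ r x} ∩ (Icc b₁ b₂ ×ˢ Icc 0 (2 * Real.pi))) ≤
      ENNReal.ofReal ((b₂ - b₁) * (4 * Real.pi * ρ)) +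
      (ENNReal.ofReal ((b₂ - b₁) * (64 * Real.pi * δ)) +
      ENNReal.ofReal (((4 * δ + 2 * (Real.sqrt δ / ρ)) *
        (b₂ - b₁ + 1 + 2 * (Real.sqrt δ / ρ))) * (2 * Real.pi))) := by
  have hπ := Real.pi_pos
  set S1 : Set (ℝ × ℝ) := Icc b₁ b₂ ×ˢ {θ : ℝ | θ ∈ Icc 0 (2 * Real.pi) ∧
    ‖1 - (1 : ℂ) * ((r : ℂ) * exp (θ * I))‖ < ρ} with hS1
  set S2 : Set (ℝ × ℝ) := Icc b₁ b₂ ×ˢ {θ : ℝ | θ ∈ Icc 0 (2 * Real.pi) ∧ ∃ m n : ℤ,
    ¬ (m = 0 ∧ n = 0) ∧ ‖(m : ℂ) * cay I ((r : ℂ) * exp (θ * I)) + n‖ ^ 2 <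
        δ * (cay I ((r : ℂ) * exp (θ * I))).im} with hS2
  set S3 : Set (ℝ × ℝ) := (Icc b₁ b₂ ×ˢ Icc 0 (2 * Real.pi)) ∩
    ({x : ℝ × ℝ | ρ ≤ ‖1 - (r : ℂ) * exp (x.2 * I)‖} ∩
    (⋃ m : ℤ, ⋃ n : ℤ, {x : ℝ × ℝ | δ * (cay I (r * exp (x.2 * I))).im ≤
        ‖(a₀ : ℂ) * cay I (r * exp (x.2 * I)) + x.1 - m * cay I (r * exp (x.2 * I)) -
          n‖ ^ 2}ᶜ)) with hS3
  have hsub : {x | ¬ Thick a₀ δ ρ r x} ∩ (Icc b₁ b₂ ×ˢ Icc 0 (2 * Real.pi)) ⊆ S1 ∪ (S2 ∪ S3) := by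
    rintro ⟨b, θ⟩ ⟨h, hb, hθ⟩
    simp only [Set.mem_ofPred_eq] at h
    simp only at hb hθ
    by_cases h1 : ρ ≤ ‖1 - (r : ℂ) * exp (θ * I)‖
    · by_cases h2 : ∀ m n : ℤ, ¬ (m = 0 ∧ n = 0) → δ * (cay I (r * exp (θ * I))).im ≤
          ‖(m : ℂ) * cay I (r * exp (θ * I)) + n‖ ^ 2
      · right; right
        rw [hS3]
        refine ⟨⟨hb, hθ⟩, h1, ?_⟩
        by_contra h3
        apply h
        refine ⟨h1, h2, ?_⟩
        intro m n
        by_contra h4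
        apply h3
        simp only [mem_iUnion]
        exact ⟨m, n, h4⟩
      · right; left
        push Not at h2
        obtain ⟨m, n, h3, h4⟩ := h2
        refine ⟨hb, hθ, m, n, ?_, h4⟩
        rintro ⟨e1, e2⟩
        exact h3 e1 e2
    · left
      push Not at h1
      refine ⟨hb, hθ, ?_⟩
      rw [one_mul]
      exact h1
  refine (measure_mono hsub).trans ((measure_union_le _ _).trans ?_)
  have hv1 : volume S1 ≤ ENNReal.ofReal ((b₂ - b₁) * (4 * Real.pi * ρ)) := by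
    rw [hS1, Measure.volume_eq_prod, Measure.prod_prod, Real.volume_Icc,
      ENNReal.ofReal_mul (by linarith)]
    exact mul_le_mul_right (mea_A 1 (by simp) r ρ hr hρ) _
  have hv2 : volume S2 ≤ ENNReal.ofReal ((b₂ - b₁) * (64 * Real.pi * δ)) := by
    rw [hS2, Measure.volume_eq_prod, Measure.prod_prod, Real.volume_Icc,
      ENNReal.ofReal_mul (by linarith)]
    exact mul_le_mul_right (mea_B r δ hr hr1 hδ) _
  have hv3 : volume S3 ≤ ENNReal.ofReal (((4 * δ + 2 * (Real.sqrt δ / ρ)) *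
        (b₂ - b₁ + 1 + 2 * (Real.sqrt δ / ρ))) * (2 * Real.pi)) := by
    have hm3 : MeasurableSet S3 := by
      rw [hS3]
      refine (measurableSet_Icc.prod measurableSet_Icc).inter ((mea_meas1 ρ r).inter ?_)
      exact MeasurableSet.iUnion fun m => MeasurableSet.iUnion fun n => (mea_meas3 a₀ δ r m n).compl
    rw [Measure.volume_eq_prod, Measure.prod_apply_symm hm3]
    set K := (4 * δ + 2 * (Real.sqrt δ / ρ)) * (b₂ - b₁ + 1 + 2 * (Real.sqrt δ / ρ)) with hK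
    have hK0 : 0 ≤ K := by
      rw [hK]
      have := Real.sqrt_nonneg δ
      have h2 : 0 ≤ Real.sqrt δ / ρ := by positivity
      exact mul_nonneg (by linarith) (by linarith)
    have hle : ∀ θ : ℝ, volume ((fun x : ℝ => (x, θ)) ⁻¹' S3) ≤
        (Icc 0 (2 * Real.pi)).indicator (fun _ => ENNReal.ofReal K) θ := by
      intro θ
      by_cases hθ : θ ∈ Icc 0 (2 * Real.pi)
      · rw [indicator_of_mem hθ]
        by_cases h1 : ρ ≤ ‖1 - (r : ℂ) * exp (θ * I)‖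
        · refine (measure_mono ?_).trans (mea_D a₀ b₁ b₂ δ ρ r θ hb hδ hρ hr hr1 h1)
          rintro b ⟨⟨hb, -⟩, -, h3⟩
          simp only [mem_iUnion] at h3
          obtain ⟨m, n, h4⟩ := h3
          refine ⟨hb, m, n, ?_⟩
          simp only [mem_compl_iff, Set.mem_ofPred_eq, not_le] at h4
          exact h4
        · have : (fun x : ℝ => (x, θ)) ⁻¹' S3 = ∅ := by
            ext b
            simp only [mem_preimage, mem_empty_iff_false, iff_false]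
            rintro ⟨-, h2, -⟩
            exact h1 h2
          rw [this]
          simp
      · rw [indicator_of_notMem hθ]
        have : (fun x : ℝ => (x, θ)) ⁻¹' S3 = ∅ := by
          ext b
          simp only [mem_preimage, mem_empty_iff_false, iff_false]
          rintro ⟨⟨-, h2⟩, -⟩
          exact hθ h2
        rw [this]
        simp
    refine (lintegral_mono hle).trans ?_
    rw [lintegral_indicator measurableSet_Icc, lintegral_const, Measure.restrict_apply_univ,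
      Real.volume_Icc, ENNReal.ofReal_mul hK0, sub_zero]
  exact add_le_add hv1 ((measure_union_le _ _).trans (add_le_add hv2 hv3))

theorem mea : MeaStmt := by
  intro a₀ b₁ b₂ η hb hη
  have hπ := Real.pi_pos
  have hbb : 0 < b₂ - b₁ := by linarith
  set ρ := η / (12 * Real.pi * (b₂ - b₁)) with hρ
  have hρ0 : 0 < ρ := by positivity
  have hc : Continuous (fun δ : ℝ => (b₂ - b₁) * (64 * Real.pi * δ) +
      ((4 * δ + 2 * (Real.sqrt δ / ρ)) * (b₂ - b₁ + 1 + 2 * (Real.sqrt δ / ρ))) *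
        (2 * Real.pi)) := by
    have := Real.continuous_sqrt
    fun_prop
  have h0 : Tendsto (fun δ : ℝ => (b₂ - b₁) * (64 * Real.pi * δ) +
      ((4 * δ + 2 * (Real.sqrt δ / ρ)) * (b₂ - b₁ + 1 + 2 * (Real.sqrt δ / ρ))) *
        (2 * Real.pi)) (𝓝 0) (𝓝 0) := by
    have := hc.tendsto 0
    simpa using this
  have h1 : ∀ᶠ δ in 𝓝[>] (0 : ℝ), (b₂ - b₁) * (64 * Real.pi * δ) +
      ((4 * δ + 2 * (Real.sqrt δ / ρ)) * (b₂ - b₁ + 1 + 2 * (Real.sqrt δ / ρ))) *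
        (2 * Real.pi) < η / 3 := by
    have h2 : ∀ᶠ δ in 𝓝 (0 : ℝ), (b₂ - b₁) * (64 * Real.pi * δ) +
      ((4 * δ + 2 * (Real.sqrt δ / ρ)) * (b₂ - b₁ + 1 + 2 * (Real.sqrt δ / ρ))) *
        (2 * Real.pi) < η / 3 := h0.eventually (gt_mem_nhds (by positivity))
    exact nhdsWithin_le_nhds h2
  obtain ⟨δ, h2, hδ⟩ := (h1.and self_mem_nhdsWithin).exists
  have hδ : 0 < δ := hδ
  refine ⟨δ, hδ, ρ, hρ0, ?_⟩
  intro r hr
  refine ⟨(mea_measT a₀ δ ρ r).compl, ?_⟩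
  refine (mea_E a₀ b₁ b₂ δ ρ r hb hδ hρ0 hr.1 hr.2).trans ?_
  have h3 : 0 ≤ (4 * δ + 2 * (Real.sqrt δ / ρ)) * (b₂ - b₁ + 1 + 2 * (Real.sqrt δ / ρ)) := by
    have h5 : 0 ≤ Real.sqrt δ / ρ := by positivity
    exact mul_nonneg (by linarith) (by linarith)
  rw [← ENNReal.ofReal_add (by positivity) (by positivity),
    ← ENNReal.ofReal_add (by positivity) (by positivity)]
  apply ENNReal.ofReal_le_ofReal
  have h4 : (b₂ - b₁) * (4 * Real.pi * ρ) = η / 3 := by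
    rw [hρ]
    field_simp
    norm_num
  rw [h4]
  linarith

end Pool.Agent.H63.TC
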