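import Pool.Agent.H63.TC.Stmts

/-!
# Project TC, module PHD: `Phi` is a local biholomorphism
-/

open Complex Metric Set Filter Topology

namespace Pool.Agent.H63.TC

theorem phd_P (h : PdfStmt) {τ z : ℂ} (hτ : 0 < τ.im) (hz : ¬ Lat τ z) :
    DifferentiableAt ℂ (fun q : ℂ × ℂ => P q.1 q.2) (τ, z) :=
  h.1.differentiableAt (isOpen_YY.mem_nhds (show (τ, z) ∈ YY from ⟨hτ, hz⟩))

theorem phd_comp (h : PdfStmt) {g : ℂ × ℂ → ℂ} {q : ℂ × ℂ} (hτ : 0 < q.1.im)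
    (hz : ¬ Lat q.1 (g q)) (hg : DifferentiableAt ℂ g q) :
    DifferentiableAt ℂ (fun x : ℂ × ℂ => P x.1 (g x)) q := by
  have h1 := phd_P h hτ hz
  have h2 : DifferentiableAt ℂ (fun x : ℂ × ℂ => (x.1, g x)) q :=
    differentiableAt_fst.prodMk hg
  exact DifferentiableAt.comp (g := fun q : ℂ × ℂ => P q.1 q.2) (f := fun x : ℂ × ℂ => (x.1, g x))
    q h1 h2

theorem phd_e1 (h : PdfStmt) {q : ℂ × ℂ} (hτ : 0 < q.1.im) :
    DifferentiableAt ℂ (fun x : ℂ × ℂ => e1 x.1) q :=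
  phd_comp h (g := fun x => x.1 / 2) hτ (not_lat_half1 hτ) (by fun_prop)

theorem phd_e2 (h : PdfStmt) {q : ℂ × ℂ} (hτ : 0 < q.1.im) :
    DifferentiableAt ℂ (fun x : ℂ × ℂ => e2 x.1) q :=
  phd_comp h (g := fun x => (1 + x.1) / 2) hτ (not_lat_half2 hτ) (by fun_prop)

theorem phd_yy (h : PdfStmt) (hl : HlfStmt) :
    DifferentiableOn ℂ (fun q : ℂ × ℂ => yy q.1 q.2) YY := by
  intro q hq
  obtain ⟨hτ, hz⟩ := hq
  have h1 : DifferentiableAt ℂ (fun x : ℂ × ℂ => P x.1 (x.2 / 2)) q :=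
    phd_comp h (g := fun x => x.2 / 2) hτ (not_lat_div_two hz) (by fun_prop)
  have h2 := phd_e1 h (q := q) hτ
  have h3 := phd_e2 h (q := q) hτ
  have h4 : e2 q.1 - e1 q.1 ≠ 0 := sub_ne_zero.2 (hl q.1 hτ).1.symm
  have h5 : DifferentiableAt ℂ (fun x : ℂ × ℂ => P x.1 (x.2 / 2) - e1 x.1) q := h1.sub h2
  have h6 : DifferentiableAt ℂ (fun x : ℂ × ℂ => e2 x.1 - e1 x.1) q := h3.sub h2
  have h7 : DifferentiableAt ℂ (fun x : ℂ × ℂ => (P x.1 (x.2 / 2) - e1 x.1) / (e2 x.1 - e1 x.1)) q :=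
    h5.mul (h6.inv (h := fun x : ℂ × ℂ => e2 x.1 - e1 x.1) h4)
  exact h7.differentiableWithinAt

theorem phd_hasDerivAt (h : PdfStmt) {τ u : ℂ} (hτ : 0 < τ.im) (hu : ¬ Lat τ u) :
    HasDerivAt (yy τ) (deriv (P τ) (u / 2) * (1 / 2) / (e2 τ - e1 τ)) u := by
  have h1 : DifferentiableAt ℂ (P τ) (u / 2) := by
    have h2 := phd_P h hτ (not_lat_div_two hu)
    exact DifferentiableAt.comp (g := fun q : ℂ × ℂ => P q.1 q.2) (f := fun z : ℂ => (τ, z))
      (u / 2) h2 ((differentiableAt_const τ).prodMk differentiableAt_id)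
  have h2 : HasDerivAt (fun u : ℂ => u / 2) (1 / 2) u := (hasDerivAt_id u).div_const 2
  have h3 := HasDerivAt.comp u (h₂ := P τ) (h := fun u : ℂ => u / 2) h1.hasDerivAt h2
  exact (h3.sub_const (e1 τ)).div_const (e2 τ - e1 τ)

theorem phd (hp : PdfStmt) (hl : HlfStmt) (ho : OdeStmt) (hlam : LmdStmt) (hc : C2dStmt) :
    PhdStmt := by
  rintro ⟨τ, u⟩ hq
  obtain ⟨hτ, hu⟩ := id hq
  dsimp only at hτ hu
  obtain ⟨h12, h13, h23, hP⟩ := hl τ hτ
  obtain ⟨P1, P2, P3⟩ := hP (u / 2) (two_mul_half_not hu)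
  have hD : e2 τ - e1 τ ≠ 0 := sub_ne_zero.2 h12.symm
  have hlam0 : deriv lam τ ≠ 0 := (hlam τ hτ).2
  -- `Phi q ∈ MM`
  have hMM : Phi (τ, u) ∈ MM := by
    refine ⟨?_, ?_, ?_, ?_, ?_⟩ <;> simp only [Phi, lam, yy]
    · exact div_ne_zero (sub_ne_zero.2 h13.symm) hD
    · intro h
      rw [div_eq_one_iff_eq hD] at h
      exact h23 (sub_left_injective h).symm
    · exact div_ne_zero (sub_ne_zero.2 P1) hD
    · intro h
      rw [div_eq_one_iff_eq hD] at h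
      exact P2 (sub_left_injective h)
    · intro h
      rw [div_left_inj' hD] at h
      exact P3 (sub_left_injective h).symm
  -- the derivative in `u`
  have hyu : yu (τ, u) ≠ 0 := by
    have h1 : yu (τ, u) = deriv (P τ) (u / 2) * (1 / 2) / (e2 τ - e1 τ) :=
      (phd_hasDerivAt hp hτ hu).deriv
    rw [h1]
    have h2 := ho τ hτ (u / 2) (two_mul_half_not hu)
    have h3 : deriv (P τ) (u / 2) ≠ 0 := by
      intro h0
      rw [h0] at h2
      have h4 : 4 * (P τ (u / 2) - e1 τ) * (P τ (u / 2) - e2 τ) * (P τ (u / 2) - e3 τ) ≠ 0 :=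
        mul_ne_zero (mul_ne_zero (mul_ne_zero (by norm_num) (sub_ne_zero.2 P1))
          (sub_ne_zero.2 P2)) (sub_ne_zero.2 P3)
      exact h4 (by rw [← h2]; ring)
    exact div_ne_zero (mul_ne_zero h3 (by norm_num)) hD
  -- second order facts
  obtain ⟨f1, f2, -, f4, f5⟩ := hc (fun q : ℂ × ℂ => yy q.1 q.2) YY isOpen_YY (phd_yy hp hl)
  have hg : DifferentiableOn ℂ (fun q : ℂ × ℂ => lam q.1) YY := by
    intro q hq'
    have h1 := (hlam q.1 hq'.1).1
    exact (DifferentiableAt.comp (g := lam) (f := fun q : ℂ × ℂ => q.1) q h1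
      differentiableAt_fst).differentiableWithinAt
  obtain ⟨-, -, -, g4, g5⟩ := hc (fun q : ℂ × ℂ => lam q.1) YY isOpen_YY hg
  refine ⟨hMM, hlam0, hyu, f1.differentiableAt (isOpen_YY.mem_nhds hq),
    f2.differentiableAt (isOpen_YY.mem_nhds hq), ?_⟩
  let M : (ℂ × ℂ) →L[ℂ] (ℂ × ℂ) := (fderiv ℂ (fun q : ℂ × ℂ => lam q.1) (τ, u)).prod
    (fderiv ℂ (fun q : ℂ × ℂ => yy q.1 q.2) (τ, u))
  have hM : ∀ v : ℂ × ℂ, M v = (deriv lam τ * v.1, yt (τ, u) * v.1 + yu (τ, u) * v.2) := by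
    intro v
    have h1 := g5 (τ, u) hq v
    have h2 := f5 (τ, u) hq v
    have h3 : deriv (fun _ : ℂ => lam τ) u = 0 := deriv_const _ _
    have h1' : fderiv ℂ (fun q : ℂ × ℂ => lam q.1) (τ, u) v = deriv lam τ * v.1 := by
      rw [h1]
      show deriv (fun s => lam s) τ * v.1 + deriv (fun _ : ℂ => lam τ) u * v.2 = _
      rw [h3, zero_mul, add_zero]
    have h2' : fderiv ℂ (fun q : ℂ × ℂ => yy q.1 q.2) (τ, u) v =
        yt (τ, u) * v.1 + yu (τ, u) * v.2 := h2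
    show (fderiv ℂ (fun q : ℂ × ℂ => lam q.1) (τ, u) v,
      fderiv ℂ (fun q : ℂ × ℂ => yy q.1 q.2) (τ, u) v) = _
    rw [h1', h2']
  have hinj : M.ker = ⊥ := by
    rw [LinearMap.ker_eq_bot']
    intro v hv
    have h1 : M v = 0 := hv
    rw [hM v] at h1
    have h2 : deriv lam τ * v.1 = 0 := congrArg Prod.fst h1
    have h3 : yt (τ, u) * v.1 + yu (τ, u) * v.2 = 0 := congrArg Prod.snd h1
    have h4 : v.1 = 0 := by
      rcases mul_eq_zero.1 h2 with h | h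
      · exact absurd h hlam0
      · exact h
    rw [h4, mul_zero, zero_add] at h3
    have h5 : v.2 = 0 := by
      rcases mul_eq_zero.1 h3 with h | h
      · exact absurd h hyu
      · exact h
    exact Prod.ext h4 h5
  have hsurj : M.range = ⊤ := by
    rw [LinearMap.range_eq_top]
    intro w
    refine ⟨(w.1 / deriv lam τ, (w.2 - yt (τ, u) * (w.1 / deriv lam τ)) / yu (τ, u)), ?_⟩
    show M _ = w
    rw [hM]
    refine Prod.ext ?_ ?_
    · show deriv lam τ * (w.1 / deriv lam τ) = w.1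
      field_simp
    · show yt (τ, u) * (w.1 / deriv lam τ) +
        yu (τ, u) * ((w.2 - yt (τ, u) * (w.1 / deriv lam τ)) / yu (τ, u)) = w.2
      rw [mul_div_cancel₀ _ hyu]
      ring
  refine ⟨ContinuousLinearEquiv.ofBijective M hinj hsurj, ?_, ?_⟩
  · rw [ContinuousLinearEquiv.coe_ofBijective]
    exact (g4 (τ, u) hq).prodMk (f4 (τ, u) hq)
  · intro v
    have : (ContinuousLinearEquiv.ofBijective M hinj hsurj) v = M v := by
      rw [ContinuousLinearEquiv.coeFn_ofBijective]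
    rw [this]
    exact hM v

end Pool.Agent.H63.TC
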